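import Pool.Agent.helper53.PV.SpecD

/-!
# Project pv, row pvd:JCO
-/

set_option autoImplicit false

namespace Pool.Agent.PV

open Pool.Agent.CZ

theorem JCO (hJNA : JNA_stmt) (hJIN : JIN_stmt) : JCO_stmt := by
  intro Y _ _ y z hz
  have hy : trC C(Y, ℂ) z y = 0 := by
    have h := hJNA C(Y, ℂ) ℂ (evC ℂ y).toRingHom z
    rw [hz, map_zero] at h
    exact h.symm
  have hint : ∀ x, ∃ n : ℤ, trC C(Y, ℂ) z x = n := fun x => hJIN Y z x
  choose N hN using hint
  have hc : Continuous N := by
    have h1 : Topology.IsClosedEmbedding (fun n : ℤ => (((n : ℝ) : ℂ))) :=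
      Complex.isometry_ofReal.isClosedEmbedding.comp Int.isClosedEmbedding_coe_real
    have h3 : (fun x => (((N x : ℤ) : ℝ) : ℂ)) = fun x => trC C(Y, ℂ) z x := by
      funext x
      rw [hN x]
      push_cast
      rfl
    refine h1.isEmbedding.isInducing.continuous_iff.mpr ?_
    change Continuous (fun x => (((N x : ℤ) : ℝ) : ℂ))
    rw [h3]
    exact (trC C(Y, ℂ) z).continuous
  have hNy : N y = 0 := by
    have h := hN y
    rw [hy] at h
    exact_mod_cast h.symm
  ext x
  rw [hN x]
  have h4 : N x = N y := PreconnectedSpace.constant inferInstance hc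
  rw [h4, hNy]
  simp

end Pool.Agent.PV
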