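import Pool.Agent.helper53.PV.SpecD

/-!
# Project pv, row pvd:JIN
-/

set_option autoImplicit false

namespace Pool.Agent.PV

open Pool.Agent.CZ

theorem JIN_ind {R : Type} [Ring R] (P : K0 R → Prop) (h0 : P 0) (hc : ∀ p : IdemMat R, P (cls p))
    (hn : ∀ z, P z → P (-z)) (ha : ∀ z w, P z → P w → P (z + w)) (z : K0 R) : P z := by
  refine QuotientAddGroup.induction_on z fun x => ?_
  refine FreeAbelianGroup.induction_on x h0 (fun p => hc p) (fun p hp => ?_) (fun a b h1 h2 => ?_)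
  · exact hn _ hp
  · exact ha _ _ h1 h2

theorem JIN_trace {n : ℕ} (M : Matrix (Fin n) (Fin n) ℂ) (hM : M * M = M) : ∃ k : ℕ, ∑ i, M i i = (k : ℂ) := by
  have h1 : IsIdempotentElem (Matrix.toLin' M) := by
    have h := Matrix.toLin'_mul M M
    rw [hM] at h
    exact h.symm
  have h2 := (LinearMap.IsIdempotentElem.isProj_range _ h1).trace
  rw [Matrix.trace_toLin'_eq] at h2
  exact ⟨_, h2⟩

theorem JIN : JIN_stmt := by
  intro X _ z x
  refine JIN_ind (fun z : K0 C(X, ℂ) => ∃ n : ℤ, trC C(X, ℂ) z x = n) ?_ ?_ ?_ ?_ z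
  · refine ⟨0, ?_⟩
    change trC C(X, ℂ) 0 x = _
    rw [map_zero]
    simp
  · intro p
    obtain ⟨k, hk⟩ := JIN_trace (p.e.map (evC ℂ x).toRingHom) (by
      have h := congrArg (fun M : Matrix (Fin p.n) (Fin p.n) C(X, ℂ) => (evC ℂ x).toRingHom.mapMatrix M) p.idem
      simp only [map_mul] at h
      exact h)
    refine ⟨k, ?_⟩
    change trC C(X, ℂ) (cls p) x = _
    rw [trC_cls]
    have h2 : (evC ℂ x) (∑ i, p.e i i) = ∑ i, (evC ℂ x) (p.e i i) := map_sum _ _ _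
    calc (∑ i, p.e i i) x = (evC ℂ x) (∑ i, p.e i i) := rfl
      _ = ∑ i, (evC ℂ x) (p.e i i) := h2
      _ = (k : ℂ) := hk
      _ = ((k : ℤ) : ℂ) := by push_cast; rfl
  · rintro z ⟨n, hn⟩
    refine ⟨-n, ?_⟩
    rw [map_neg, ContinuousMap.neg_apply, hn]
    push_cast
    rfl
  · rintro z w ⟨n, hn⟩ ⟨m, hm⟩
    refine ⟨n + m, ?_⟩
    rw [map_add, ContinuousMap.add_apply, hn, hm]
    push_cast
    rfl

end Pool.Agent.PV
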