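import Pool.Agent.helper53.PV.SpecD

/-!
# Project pv, row pvd:JPR
-/

set_option autoImplicit false

namespace Pool.Agent.PV

open Pool.Agent.CZ

theorem JPR_ind {R : Type} [Ring R] (P : K0 R → Prop) (h0 : P 0) (hc : ∀ p : IdemMat R, P (cls p))
    (hn : ∀ z, P z → P (-z)) (ha : ∀ z w, P z → P w → P (z + w)) (z : K0 R) : P z := by
  refine QuotientAddGroup.induction_on z fun x => ?_
  refine FreeAbelianGroup.induction_on x h0 (fun p => hc p) (fun p hp => ?_) (fun a b h1 h2 => ?_)
  · exact hn _ hp
  · exact ha _ _ h1 h2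

theorem JPR_k0map {A B : Type} [Ring A] [Ring B] (φ : A →+* B) (p : IdemMat A) : k0map φ (cls p) = cls (imap φ p) := rfl

theorem JPR_pair {A : Type} [CStarAlgebra A] (t : TracialState A) (p : IdemMat A) :
    pair t (cls p) = ∑ i, t.τ (p.e i i) := by
  change (FreeAbelianGroup.lift (fun p : IdemMat A => ∑ i, t.τ (p.e i i))) (FreeAbelianGroup.of p) = _
  rw [FreeAbelianGroup.lift_apply_of]

theorem JPR (hJCX : JCX_stmt) : JPR_stmt := by
  intro X _ _ α A _ ι t φ hφ z
  obtain ⟨hadd, hsm, -⟩ := hJCX X α φ
  let L : C(X, ℂ) →+ ℂ := { toFun := φ.cx, map_zero' := by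
                              have h := hadd 0 0
                              rw [add_zero] at h
                              exact left_eq_add.mp h
                            map_add' := hadd }
  have hL : ∀ f, φ.cx f = L f := fun _ => rfl
  rw [hL]
  refine JPR_ind (fun z : K0 C(X, ℂ) => pair t (k0map ι.toAlgHom.toRingHom z) = L (trC C(X, ℂ) z)) ?_ ?_ ?_ ?_ z
  · simp only [map_zero]
  · intro p
    change pair t (k0map ι.toAlgHom.toRingHom (cls p)) = L (trC C(X, ℂ) (cls p))
    rw [JPR_k0map, JPR_pair, trC_cls, map_sum]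
    refine Finset.sum_congr rfl fun i _ => ?_
    exact (hφ (p.e i i)).symm
  · intro z hz
    simp only [map_neg] at hz ⊢
    rw [hz]
  · intro z w hz hw
    simp only [map_add] at hz hw ⊢
    rw [hz, hw]

end Pool.Agent.PV
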